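import Pool.Agent.H50.G.S.Helper112.Lp.Kbh
import Pool.Agent.H50.G.S.H410R2.EDIface
/-!
Brun-Hooley sieve of dimension `κ`, uniformly in `κ` (port of the dimension two sieve of
`Pool.Agent.Helper112.Lp.Kba` and `Pool.Agent.Helper112.Lp.Kbh`).
-/

set_option autoImplicit false

open Finset

namespace Pool.Agent.H483R2.BHKD

open Pool.Agent.Helper112.LP Pool.Agent.Helper112.LP.Kba Pool.Agent.Helper112.LP.Kbh

theorem bhk_expand (κ : ℝ) (m : ℕ) (g : ℕ → ℝ) (Ω : Type) (S : Finset Ω) (n : Ω → ℕ) (X E : ℝ)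
    (F : Fin m → Finset (Finset ℕ)) (c : Fin m → Finset ℕ → ℝ) (hc : ∀ i U, |c i U| ≤ 1)
    (H : ∀ T ∈ Fintype.piFinset F,
      |((S.filter (fun ω => ∀ i, ∀ l ∈ T i, l ∣ n ω)).card : ℝ) - X * ∏ i, ∏ l ∈ T i, g l|
        ≤ κ ^ (∑ i, (T i).card) * E) :
    |(∑ ω ∈ S, ∏ i, ∑ U ∈ F i, if ∀ l ∈ U, l ∣ n ω then c i U else 0) -
      X * ∏ i, ∑ U ∈ F i, c i U * ∏ l ∈ U, g l| ≤ E * ∏ i, ∑ U ∈ F i, κ ^ U.card := by
  have h1 : (∑ ω ∈ S, ∏ i, ∑ U ∈ F i, if ∀ l ∈ U, l ∣ n ω then c i U else 0) =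
      ∑ T ∈ Fintype.piFinset F, (∏ i, c i (T i)) *
        ((S.filter (fun ω => ∀ i, ∀ l ∈ T i, l ∣ n ω)).card : ℝ) := by
    have h2 : ∀ ω ∈ S, (∏ i, ∑ U ∈ F i, if ∀ l ∈ U, l ∣ n ω then c i U else 0) =
        ∑ T ∈ Fintype.piFinset F, (∏ i, c i (T i)) *
          (if ∀ i, ∀ l ∈ T i, l ∣ n ω then (1 : ℝ) else 0) := by
      intro ω _
      rw [prod_univ_sum]
      apply sum_congr rfl
      intro T _
      rw [Fintype.prod_ite_zero]
      split_ifs <;> simp
    rw [sum_congr rfl h2, sum_comm]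
    apply sum_congr rfl
    intro T _
    rw [← mul_sum, sum_boole]
  have h3 : X * ∏ i, ∑ U ∈ F i, c i U * ∏ l ∈ U, g l =
      ∑ T ∈ Fintype.piFinset F, (∏ i, c i (T i)) * (X * ∏ i, ∏ l ∈ T i, g l) := by
    rw [prod_univ_sum, mul_sum]
    apply sum_congr rfl
    intro T _
    rw [prod_mul_distrib]
    ring
  rw [h1, h3, ← sum_sub_distrib]
  refine (abs_sum_le_sum_abs _ _).trans ?_
  rw [prod_univ_sum, mul_sum]
  apply sum_le_sum
  intro T hT
  rw [← mul_sub, abs_mul, prod_pow_eq_pow_sum]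
  have h4 : |∏ i, c i (T i)| ≤ 1 := by
    rw [abs_prod]
    exact prod_le_one (fun _ _ => abs_nonneg _) (fun i _ => hc i (T i))
  have h5 := H T hT
  calc |∏ i, c i (T i)| * |((S.filter (fun ω => ∀ i, ∀ l ∈ T i, l ∣ n ω)).card : ℝ) -
        X * ∏ i, ∏ l ∈ T i, g l| ≤ 1 * (κ ^ (∑ i, (T i).card) * E) :=
        mul_le_mul h4 h5 (abs_nonneg _) zero_le_one
    _ = E * κ ^ (∑ i, (T i).card) := by ring

/-- abstract Brun-Hooley inequalities in dimension `κ` -/
theorem bhk_abs (κ : ℝ) (hκ : 0 ≤ κ) (m : ℕ) (P : Fin m → Finset ℕ)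
    (b : Fin m → ℕ) (hb : ∀ i, Even (b i)) (g : ℕ → ℝ)
    (Ω : Type) (S : Finset Ω) (n : Ω → ℕ) (X E : ℝ) (hX : 0 ≤ X) (hE : 0 ≤ E)
    (H : ∀ T : Fin m → Finset ℕ, (∀ i, T i ⊆ P i) →
      (∃ k : ℕ, ∀ i, (T i).card ≤ b i + if (i : ℕ) = k then 1 else 0) →
      |((S.filter (fun ω => ∀ i, ∀ l ∈ T i, l ∣ n ω)).card : ℝ) - X * ∏ i, ∏ l ∈ T i, g l|
        ≤ κ ^ (∑ i, (T i).card) * E) :
    ((S.filter (fun ω => ∀ i, ∀ l ∈ P i, ¬ l ∣ n ω)).card : ℝ) ≤
      X * (∏ i, ∑ U ∈ (P i).powerset.filter (fun U => U.card ≤ b i), (-1) ^ U.card * ∏ l ∈ U, g l)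
      + E * ∏ i, ∑ U ∈ (P i).powerset.filter (fun U => U.card ≤ b i + 1), κ ^ U.card ∧
    X * ((∏ i, ∑ U ∈ (P i).powerset.filter (fun U => U.card ≤ b i), (-1) ^ U.card * ∏ l ∈ U, g l)
      - ∑ k, (∑ U ∈ (P k).powersetCard (b k + 1), ∏ l ∈ U, g l) *
        ∏ i ∈ univ.erase k, ∑ U ∈ (P i).powerset.filter (fun U => U.card ≤ b i),
          (-1) ^ U.card * ∏ l ∈ U, g l)
      - (m + 1) * E * ∏ i, ∑ U ∈ (P i).powerset.filter (fun U => U.card ≤ b i + 1),
        κ ^ U.card ≤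
      ((S.filter (fun ω => ∀ i, ∀ l ∈ P i, ¬ l ∣ n ω)).card : ℝ) := by
  classical
  set x : Ω → Fin m → ℝ := fun ω i => if ∀ l ∈ P i, ¬ l ∣ n ω then (1 : ℝ) else 0 with hx
  set y : Ω → Fin m → ℝ := fun ω i => ∑ U ∈ (P i).powerset.filter (fun U => U.card ≤ b i),
        if ∀ l ∈ U, l ∣ n ω then ((-1 : ℝ)) ^ U.card else 0 with hy
  set e : Ω → Fin m → ℝ := fun ω i => ∑ U ∈ powersetCard (b i + 1) (P i),
        if ∀ l ∈ U, l ∣ n ω then (1 : ℝ) else 0 with he
  have hloc : ∀ ω i, 0 ≤ x ω i ∧ x ω i ≤ y ω i ∧ y ω i - x ω i ≤ e ω i := fun ω i =>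
    bh_local (P i) (b i) (hb i) (n ω)
  set Q : ℝ := ∏ i, ∑ U ∈ (P i).powerset.filter (fun U => U.card ≤ b i + 1),
        κ ^ U.card with hQ
  set Tr : Fin m → ℝ := fun i => ∑ U ∈ (P i).powerset.filter (fun U => U.card ≤ b i),
    (-1) ^ U.card * ∏ l ∈ U, g l with hTr
  set Er : Fin m → ℝ := fun i => ∑ U ∈ (P i).powersetCard (b i + 1), ∏ l ∈ U, g l with hEr
  have hcard : ((S.filter (fun ω => ∀ i, ∀ l ∈ P i, ¬ l ∣ n ω)).card : ℝ) =
      ∑ ω ∈ S, ∏ i, x ω i := by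
    rw [← sum_boole]
    apply sum_congr rfl
    intro ω _
    simp only [hx]
    rw [Fintype.prod_ite_zero]
    simp
  have hsub1 : ∀ i, (P i).powerset.filter (fun U => U.card ≤ b i) ⊆
      (P i).powerset.filter (fun U => U.card ≤ b i + 1) := by
    intro i U hU
    rw [mem_filter] at hU ⊢
    exact ⟨hU.1, by omega⟩
  have hsub2 : ∀ i, powersetCard (b i + 1) (P i) ⊆
      (P i).powerset.filter (fun U => U.card ≤ b i + 1) := by
    intro i U hU
    rw [mem_powersetCard] at hU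
    rw [mem_filter, mem_powerset]
    exact ⟨hU.1, hU.2.le⟩
  -- (a)
  have hA : |(∑ ω ∈ S, ∏ i, y ω i) - X * ∏ i, Tr i| ≤ E * Q := by
    have h1 := bhk_expand κ m g Ω S n X E
      (fun i => (P i).powerset.filter (fun U => U.card ≤ b i)) (fun _ U => (-1) ^ U.card)
      (by intro i U; rw [abs_neg_one_pow]) (by
        intro T hT
        rw [Fintype.mem_piFinset] at hT
        apply H T
        · intro i
          have := hT i
          rw [mem_filter, mem_powerset] at this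
          exact this.1
        · refine ⟨m, fun i => ?_⟩
          have := hT i
          rw [mem_filter, mem_powerset] at this
          exact this.2.trans (Nat.le_add_right _ _))
    refine h1.trans ?_
    apply mul_le_mul_of_nonneg_left _ hE
    apply prod_le_prod
    · intro i _
      positivity
    · intro i _
      apply sum_le_sum_of_subset_of_nonneg (hsub1 i)
      intro U _ _
      positivity
  -- (b)
  have hB : ∀ k : Fin m, |(∑ ω ∈ S, e ω k * ∏ i ∈ univ.erase k, y ω i) -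
      X * (Er k * ∏ i ∈ univ.erase k, Tr i)| ≤ E * Q := by
    intro k
    have h1 := bhk_expand κ m g Ω S n X E
      (fun i => if i = k then powersetCard (b i + 1) (P i) else
        (P i).powerset.filter (fun U => U.card ≤ b i))
      (fun i U => if i = k then 1 else (-1) ^ U.card)
      (by intro i U; split_ifs <;> simp) (by
        intro T hT
        rw [Fintype.mem_piFinset] at hT
        apply H T
        · intro i
          have := hT i
          split_ifs at this with hik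
          · rw [mem_powersetCard] at this
            exact this.1
          · rw [mem_filter, mem_powerset] at this
            exact this.1
        · refine ⟨k, fun i => ?_⟩
          have := hT i
          split_ifs at this with hik
          · rw [mem_powersetCard] at this
            rw [if_pos (by rw [hik])]
            exact this.2.le
          · rw [mem_filter, mem_powerset] at this
            exact this.2.trans (Nat.le_add_right _ _))
    have h2 : ∀ f1 f2 : Fin m → ℝ, (∏ i, if i = k then f1 i else f2 i) =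
        f1 k * ∏ i ∈ univ.erase k, f2 i := by
      intro f1 f2
      rw [← mul_prod_erase univ _ (mem_univ k), if_pos rfl]
      congr 1
      apply prod_congr rfl
      intro i hi
      rw [if_neg (ne_of_mem_erase hi)]
    have h3 : (∑ ω ∈ S, e ω k * ∏ i ∈ univ.erase k, y ω i) =
        ∑ ω ∈ S, ∏ i, ∑ U ∈ (if i = k then powersetCard (b i + 1) (P i) else
        (P i).powerset.filter (fun U => U.card ≤ b i)), if ∀ l ∈ U, l ∣ n ω then
          (if i = k then (1 : ℝ) else (-1) ^ U.card) else 0 := by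
      apply sum_congr rfl
      intro ω _
      rw [← h2 (e ω) (y ω)]
      apply prod_congr rfl
      intro i _
      by_cases hik : i = k
      · simp only [if_pos hik, he]
      · simp only [if_neg hik, hy]
    have h4 : X * (Er k * ∏ i ∈ univ.erase k, Tr i) =
        X * ∏ i, ∑ U ∈ (if i = k then powersetCard (b i + 1) (P i) else
        (P i).powerset.filter (fun U => U.card ≤ b i)),
          (if i = k then (1 : ℝ) else (-1) ^ U.card) * ∏ l ∈ U, g l := by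
      rw [← h2 Er Tr]
      congr 1
      apply prod_congr rfl
      intro i _
      by_cases hik : i = k
      · simp only [if_pos hik, hEr, one_mul]
      · simp only [if_neg hik, hTr]
    rw [h3, h4]
    refine h1.trans ?_
    apply mul_le_mul_of_nonneg_left _ hE
    apply prod_le_prod
    · intro i _
      positivity
    · intro i _
      apply sum_le_sum_of_subset_of_nonneg
      · split_ifs
        · exact hsub2 i
        · exact hsub1 i
      · intro U _ _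
        positivity
  have hQ0 : 0 ≤ Q := by
    apply prod_nonneg
    intro i _
    positivity
  rw [hcard]
  constructor
  · have h1 : ∑ ω ∈ S, ∏ i, x ω i ≤ ∑ ω ∈ S, ∏ i, y ω i := by
      apply sum_le_sum
      intro ω _
      exact prod_le_prod (fun i _ => (hloc ω i).1) (fun i _ => (hloc ω i).2.1)
    have h2 := (abs_le.1 hA).2
    linarith
  · have h1 : ∑ ω ∈ S, ∏ i, y ω i - ∑ ω ∈ S, ∏ i, x ω i ≤
        ∑ k, ∑ ω ∈ S, e ω k * ∏ i ∈ univ.erase k, y ω i := by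
      rw [sum_comm, ← sum_sub_distrib]
      apply sum_le_sum
      intro ω _
      exact bh_prod_sub univ (x ω) (y ω) (e ω) (fun i => (hloc ω i).1) (fun i => (hloc ω i).2.1)
        (fun i => (hloc ω i).2.2)
    have h2 : ∑ k, ∑ ω ∈ S, e ω k * ∏ i ∈ univ.erase k, y ω i ≤
        ∑ k : Fin m, (X * (Er k * ∏ i ∈ univ.erase k, Tr i) + E * Q) := by
      apply sum_le_sum
      intro k _
      have := (abs_le.1 (hB k)).2
      linarith
    rw [sum_add_distrib, sum_const, card_univ, Fintype.card_fin, nsmul_eq_mul, ← mul_sum] at h2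
    have h3 := (abs_le.1 hA).1
    have h4 : X * ((∏ i, Tr i) - ∑ k, Er k * ∏ i ∈ univ.erase k, Tr i) - (m + 1) * E * Q =
      X * (∏ i, Tr i) - E * Q - (X * (∑ k, Er k * ∏ i ∈ univ.erase k, Tr i) + m * (E * Q)) := by
      ring
    rw [h4]
    linarith


/-- one term of the error -/
theorem err_one (P : Finset ℕ) (r : ℕ) (κ : ℝ) (hκ : 0 ≤ κ) :
    ∑ U ∈ P.powerset.filter (fun U => U.card ≤ r), κ ^ U.card ≤ (1 + κ * P.card) ^ r := by
  have hmaps : ∀ U ∈ P.powerset.filter (fun U => U.card ≤ r), U.card ∈ range (r + 1) := by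
    intro U hU
    rw [mem_filter] at hU
    rw [mem_range]
    exact Nat.lt_succ_of_le hU.2
  rw [← sum_fiberwise_of_maps_to hmaps]
  have h2 : (1 + κ * (P.card : ℝ)) ^ r =
      ∑ k ∈ range (r + 1), (κ * (P.card : ℝ)) ^ k * (r.choose k : ℝ) := by
    rw [add_comm, add_pow]
    apply sum_congr rfl
    intro k _
    rw [one_pow, mul_one]
  rw [h2]
  apply sum_le_sum
  intro k hk
  rw [mem_range] at hk
  have h1 : (P.powerset.filter (fun U => U.card ≤ r)).filter (fun U => U.card = k) =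
      powersetCard k P := by
    rw [powersetCard_eq_filter, filter_filter]
    apply filter_congr
    intro U _
    constructor
    · exact fun h => h.2
    · exact fun h => ⟨by omega, h⟩
  rw [h1]
  have h3 : ∀ U ∈ powersetCard k P, κ ^ U.card = κ ^ k := by
    intro U hU
    rw [(mem_powersetCard.1 hU).2]
  rw [sum_congr rfl h3, sum_const, card_powersetCard, nsmul_eq_mul, mul_pow]
  have h4 : ((P.card.choose k : ℕ) : ℝ) ≤ (P.card : ℝ) ^ k := by
    exact_mod_cast Nat.choose_le_pow _ _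
  have h5 : (1 : ℝ) ≤ (r.choose k : ℝ) := by
    exact_mod_cast Nat.choose_pos (by omega : k ≤ r)
  calc (P.card.choose k : ℝ) * κ ^ k ≤ (P.card : ℝ) ^ k * κ ^ k :=
        mul_le_mul_of_nonneg_right h4 (by positivity)
    _ = κ ^ k * (P.card : ℝ) ^ k * 1 := by ring
    _ ≤ _ := mul_le_mul_of_nonneg_left h5 (by positivity)

/-- the tail of the exponential series -/
theorem tail_one (x : ℝ) (hx : 0 ≤ x) (r : ℕ) (hr1 : 1 ≤ r) (hr : 21 * x ≤ r) :
    x ^ r / r.factorial * Real.exp (2 * x) ≤ (1 / 2) ^ r := by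
  have hr0 : (0 : ℝ) < r := by exact_mod_cast hr1
  have h1 := Real.pow_div_factorial_le_exp (r : ℝ) hr0.le r
  have he : Real.exp 1 < 2.7182818286 := Real.exp_one_lt_d9
  have he2 : 2.7182818283 < Real.exp 1 := Real.exp_one_gt_d9
  have e0 : (0 : ℝ) < Real.exp 1 := Real.exp_pos _
  have h2 : x ^ r ≤ (1 / 21) ^ r * (r : ℝ) ^ r := by
    rw [← mul_pow]
    apply pow_le_pow_left₀ hx
    linarith
  have h3 : x ^ r / r.factorial ≤ (1 / 21) ^ r * Real.exp r := by
    calc x ^ r / r.factorial ≤ (1 / 21) ^ r * (r : ℝ) ^ r / r.factorial := by gcongr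
      _ = (1 / 21) ^ r * ((r : ℝ) ^ r / r.factorial) := by ring
      _ ≤ _ := mul_le_mul_of_nonneg_left h1 (by positivity)
  have h4 : Real.exp (2 * x) ≤ Real.exp r := Real.exp_le_exp.2 (by linarith)
  have h5 : Real.exp (r : ℝ) = Real.exp 1 ^ r := by rw [← Real.exp_nat_mul, mul_one]
  calc x ^ r / r.factorial * Real.exp (2 * x) ≤ ((1 / 21) ^ r * Real.exp r) * Real.exp r :=
        mul_le_mul h3 h4 (Real.exp_pos _).le (by positivity)
    _ = (1 / 21 * Real.exp 1 * Real.exp 1) ^ r := by rw [h5]; ring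
    _ ≤ (1 / 2) ^ r := by
        apply pow_le_pow_left₀ (by positivity)
        nlinarith

/-- the sum of the relative errors -/
theorem tail_sum (b0 J : ℕ) (hb : 2 ≤ b0) :
    ∑ i : Fin J, (1 / 2 : ℝ) ^ (b0 + 2 * (J - 1 - (i : ℕ)) + 1) ≤ 1 / 2 := by
  have h1 : ∑ i : Fin J, (1 / 2 : ℝ) ^ (b0 + 2 * (J - 1 - (i : ℕ)) + 1) ≤
      ∑ i : Fin J, (1 / 2 : ℝ) ^ (2 * (J - 1 - (i : ℕ)) + 3) := by
    apply sum_le_sum
    intro i _
    apply pow_le_pow_of_le_one (by norm_num) (by norm_num)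
    omega
  refine h1.trans ?_
  rw [Fin.sum_univ_eq_sum_range (fun i => (1 / 2 : ℝ) ^ (2 * (J - 1 - i) + 3)) J,
    sum_range_reflect (fun k => (1 / 2 : ℝ) ^ (2 * k + 3)) J]
  have h2 : ∀ J : ℕ, ∑ k ∈ range J, (1 / 2 : ℝ) ^ (2 * k + 3) ≤ 1 / 2 - 1 / 2 * (1 / 4) ^ J := by
    intro J
    induction J with
    | zero => simp
    | succ J ih =>
      rw [sum_range_succ]
      have h3 : (1 / 2 : ℝ) ^ (2 * J + 3) = 1 / 8 * (1 / 4) ^ J := by
        rw [pow_add, pow_mul]; norm_num; ring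
      have h4 : (0 : ℝ) ≤ (1 / 4) ^ J := by positivity
      rw [h3, pow_succ]
      linarith
  have h5 : (0 : ℝ) ≤ (1 / 4) ^ J := by positivity
  linarith [h2 J]

/-- the groups of primes -/
def Gk (κ : ℕ) (i : ℕ) : Finset ℕ := (Gj (i + 1)).filter (fun l => 2 * κ < l)

theorem Gk_sub (κ i : ℕ) : Gk κ i ⊆ Gj (i + 1) := filter_subset _ _

/-- one factor of the error -/
theorem err_card (κ i : ℕ) : (1 : ℝ) + κ * (Gk κ i).card ≤ ((2 : ℝ) ^ 2 ^ (i + 1)) ^ 2 := by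
  set z : ℕ := 2 ^ 2 ^ (i + 1) with hz
  have hz4 : 4 ≤ z := by
    have h1 : 2 ≤ 2 ^ (i + 1) := by
      calc 2 = 2 ^ 1 := by norm_num
        _ ≤ 2 ^ (i + 1) := Nat.pow_le_pow_right (by norm_num) (by omega)
    calc 4 = 2 ^ 2 := by norm_num
      _ ≤ 2 ^ 2 ^ (i + 1) := Nat.pow_le_pow_right (by norm_num) h1
  have h0 : 1 + κ * (Gk κ i).card ≤ z ^ 2 := by
    rcases (Gk κ i).eq_empty_or_nonempty with h | ⟨l, hl⟩
    · rw [h, card_empty]
      nlinarith
    · have h1 : l < z := (bh_Gj_mem (Gk_sub κ i hl)).2.2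
      have h2 : 2 * κ < l := (mem_filter.1 hl).2
      have h3 : (Gk κ i).card ≤ z := by
        have : Gk κ i ⊆ range z := by
          intro a ha
          rw [mem_range]
          exact (bh_Gj_mem (Gk_sub κ i ha)).2.2
        simpa using card_le_card this
      nlinarith
  have h5 : ((1 + κ * (Gk κ i).card : ℕ) : ℝ) ≤ ((z ^ 2 : ℕ) : ℝ) := by exact_mod_cast h0
  rw [hz] at h5
  push_cast at h5
  exact h5

/-- the whole error -/
theorem err_all (κ J b0 : ℕ) : ((J : ℝ) + 1) * ∏ i : Fin J,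
    ∑ U ∈ (Gk κ i).powerset.filter (fun U => U.card ≤ b0 + 2 * (J - 1 - i) + 1),
      (κ : ℝ) ^ U.card ≤ ((2 : ℝ) ^ 2 ^ J) ^ (4 * b0 + 13) := by
  have h1 : ∏ i : Fin J, ∑ U ∈ (Gk κ i).powerset.filter
      (fun U => U.card ≤ b0 + 2 * (J - 1 - i) + 1), (κ : ℝ) ^ U.card ≤
      ∏ i : Fin J, (((2 : ℝ) ^ 2 ^ ((i : ℕ) + 1)) ^ 2) ^ (b0 + 2 * (J - 1 - (i : ℕ)) + 1) := by
    apply prod_le_prod
    · intro i _
      exact sum_nonneg fun U _ => by positivity
    · intro i _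
      refine (err_one (Gk κ i) _ κ (Nat.cast_nonneg κ)).trans ?_
      exact pow_le_pow_left₀ (by positivity) (err_card κ i) _
  have h2 : ∏ i : Fin J, (((2 : ℝ) ^ 2 ^ ((i : ℕ) + 1)) ^ 2) ^ (b0 + 2 * (J - 1 - (i : ℕ)) + 1) =
      2 ^ (2 * ∑ i : Fin J, 2 ^ ((i : ℕ) + 1) * (b0 + 2 * (J - 1 - (i : ℕ)) + 1)) := by
    rw [mul_sum, ← prod_pow_eq_pow_sum]
    refine prod_congr rfl fun i _ => ?_
    rw [← pow_mul, ← pow_mul]
    congr 1
    ring
  have h3 : ∑ i : Fin J, 2 ^ ((i : ℕ) + 1) * (b0 + 2 * (J - 1 - (i : ℕ)) + 1) ≤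
      2 ^ J * (2 * b0 + 6) := by
    rw [Fin.sum_univ_eq_sum_range (fun i => 2 ^ (i + 1) * (b0 + 2 * (J - 1 - i) + 1))]
    have h1 := bh_sum_aux b0 J
    have h2 : ∑ i ∈ range J, 2 ^ (i + 1) * (b0 + 2 * (J - 1 - i) + 1) =
        ∑ i ∈ range J, 2 ^ (i + 1) * (b0 + 2 * (J - 1 - i)) + 2 * ∑ i ∈ range J, 2 ^ i := by
      rw [mul_sum, ← sum_add_distrib]
      refine sum_congr rfl fun i _ => ?_
      ring
    have h3 : ∑ i ∈ range J, 2 ^ i = 2 ^ J - 1 := by
      have := Nat.geomSum_eq (le_refl 2) J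
      simpa using this
    have h4 : 1 ≤ 2 ^ J := Nat.one_le_two_pow
    rw [h2, h3]
    generalize 2 ^ J = y at *
    obtain ⟨y, rfl⟩ : ∃ w, y = w + 1 := ⟨y - 1, by omega⟩
    simp only [Nat.add_sub_cancel]
    nlinarith
  have h4 : (J : ℝ) + 1 ≤ (2 : ℝ) ^ 2 ^ J := by
    have h5 : J + 1 ≤ 2 ^ J := Nat.lt_two_pow_self
    have h6 : 2 ^ J ≤ 2 ^ 2 ^ J := Nat.pow_le_pow_right (by norm_num) Nat.lt_two_pow_self.le
    exact_mod_cast h5.trans h6
  have h7 : (2 : ℝ) ^ (2 * ∑ i : Fin J, 2 ^ ((i : ℕ) + 1) * (b0 + 2 * (J - 1 - (i : ℕ)) + 1)) ≤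
      ((2 : ℝ) ^ 2 ^ J) ^ (4 * b0 + 12) := by
    rw [← pow_mul]
    apply pow_le_pow_right₀ (by norm_num)
    calc 2 * ∑ i : Fin J, 2 ^ ((i : ℕ) + 1) * (b0 + 2 * (J - 1 - (i : ℕ)) + 1)
        ≤ 2 * (2 ^ J * (2 * b0 + 6)) := Nat.mul_le_mul_left 2 h3
      _ = 2 ^ J * (4 * b0 + 12) := by ring
  calc ((J : ℝ) + 1) * ∏ i : Fin J, ∑ U ∈ (Gk κ i).powerset.filter
        (fun U => U.card ≤ b0 + 2 * (J - 1 - i) + 1), (κ : ℝ) ^ U.card
      ≤ (2 : ℝ) ^ 2 ^ J * ((2 : ℝ) ^ 2 ^ J) ^ (4 * b0 + 12) := by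
        refine mul_le_mul h4 (h1.trans (h2.le.trans h7)) ?_ (by positivity)
        exact prod_nonneg fun i _ => sum_nonneg fun U _ => by positivity
    _ = ((2 : ℝ) ^ 2 ^ J) ^ (4 * b0 + 13) := by rw [← pow_succ']

theorem Pr_eq (κ J : ℕ) : bhU (fun i : Fin J => Gk κ (i : ℕ)) = Pool.Agent.H410R2.ED.Pr κ J := by
  ext l
  unfold Pool.Agent.H410R2.ED.Pr
  constructor
  · intro h
    have h1 := bh_mem (fun i : Fin J => Gk κ (i : ℕ)) (fun i => Gk_sub κ i) h
    unfold bhU at h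
    obtain ⟨i, _, hi⟩ := mem_biUnion.1 h
    rw [mem_filter, mem_range]
    exact ⟨h1.2, h1.1, (mem_filter.1 hi).2⟩
  · intro h
    rw [mem_filter, mem_range] at h
    obtain ⟨i, hi⟩ := bh_cover h.2.1 h.1
    unfold bhU
    exact mem_biUnion.2 ⟨i, mem_univ _, mem_filter.2 ⟨hi, h.2.2⟩⟩

theorem bhU_mono {J : ℕ} (T T' : Fin J → Finset ℕ) (h : ∀ i, T i ⊆ T' i) : bhU T ⊆ bhU T' := by
  unfold bhU
  intro l hl
  obtain ⟨i, _, hi⟩ := mem_biUnion.1 hl
  exact mem_biUnion.2 ⟨i, mem_univ _, h i hi⟩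

theorem all_bhU {J : ℕ} (T : Fin J → Finset ℕ) (p : ℕ → Prop) :
    (∀ i, ∀ l ∈ T i, p l) ↔ ∀ l ∈ bhU T, p l := by
  unfold bhU
  constructor
  · intro h l hl
    obtain ⟨i, _, hi⟩ := mem_biUnion.1 hl
    exact h i l hi
  · intro h i l hl
    exact h l (mem_biUnion.2 ⟨i, mem_univ _, hl⟩)

end Pool.Agent.H483R2.BHKD

namespace Pool.Agent.H483R2

open Pool.Agent.Helper112.LP Pool.Agent.Helper112.LP.Kba Pool.Agent.Helper112.LP.Kbh BHKD

/-- T4: Brun-Hooley sieve of dimension `κ`, uniform in `κ` -/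
theorem bhk : Pool.Agent.H410R2.ED.BHK := by
  classical
  unfold Pool.Agent.H410R2.ED.BHK
  obtain ⟨CM, hCM, hM⟩ := mertens_group
  set L : ℝ := Real.log 2 + CM with hLdef
  have hlog2 : 0 < Real.log 2 := Real.log_pos (by norm_num)
  have hL0 : 0 < L := by rw [hLdef]; linarith
  have hLs : ∀ i : ℕ, ∑ l ∈ Gj (i + 1), (1 : ℝ) / l ≤ L := by
    intro i
    have h1 := (abs_le.1 (hM (i + 1) (by omega))).2
    have h2 : CM / 2 ^ (i + 1) ≤ CM := div_le_self hCM.le (one_le_pow₀ (by norm_num))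
    rw [hLdef]; linarith
  obtain ⟨N, hN⟩ := exists_nat_ge (11 * L)
  refine ⟨8 * (N + 1) + 13, by omega, ?_⟩
  intro κ hκ g hg J Ω S n X E hX hE hyp
  have hκ0 : (0 : ℝ) < κ := by exact_mod_cast hκ
  set b0 : ℕ := 2 * ((N + 1) * κ) with hb0
  have hb02 : 2 ≤ b0 := by
    rw [hb0]; nlinarith
  have hb0e : Even b0 := even_two_mul _
  have hb0L : 21 * (κ * L) ≤ (b0 : ℝ) := by
    rw [hb0]; push_cast
    nlinarith
  set v : ℝ := Real.exp (-(2 * (κ * L))) with hv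
  have hv0 : 0 < v := Real.exp_pos _
  set b : Fin J → ℕ := fun i => b0 + 2 * (J - 1 - (i : ℕ)) with hbdef
  set P : Fin J → Finset ℕ := fun i => Gk κ (i : ℕ) with hPdef
  have hPG : ∀ i, P i ⊆ Gj ((i : ℕ) + 1) := fun i => Gk_sub κ i
  have hPp : ∀ i, ∀ l ∈ P i, l.Prime := fun i l hl => (bh_Gj_mem (hPG i hl)).1
  have hPk : ∀ i, ∀ l ∈ P i, 2 * κ < l := fun i l hl => (mem_filter.1 hl).2
  have hb : ∀ i, Even (b i) := fun i => hb0e.add (even_two_mul _)
  have H : ∀ T : Fin J → Finset ℕ, (∀ i, T i ⊆ P i) →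
      (∃ k : ℕ, ∀ i, (T i).card ≤ b i + if (i : ℕ) = k then 1 else 0) →
      |((S.filter (fun ω => ∀ i, ∀ l ∈ T i, l ∣ n ω)).card : ℝ) - X * ∏ i, ∏ l ∈ T i, g l|
        ≤ (κ : ℝ) ^ (∑ i, (T i).card) * E := by
    intro T hT _
    have hTG : ∀ i, T i ⊆ Gj ((i : ℕ) + 1) := fun i => (hT i).trans (hPG i)
    have hD : bhU T ⊆ Pool.Agent.H410R2.ED.Pr κ J := by
      rw [← Pr_eq]
      exact bhU_mono T P hT
    have h1 := hyp (bhU T) hD
    rw [bh_card T hTG] at h1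
    rw [bh_pT_eq T hTG g]
    have h2 : (S.filter (fun ω => ∀ i, ∀ l ∈ T i, l ∣ n ω)) =
        S.filter (fun ω => ∀ l ∈ bhU T, l ∣ n ω) := by
      refine filter_congr fun ω _ => ?_
      exact all_bhU T (fun l => l ∣ n ω)
    rw [h2]
    exact h1
  have hmain := bhk_abs κ hκ0.le J P b hb g Ω S n X E hX hE H
  have hSf : (S.filter (fun ω => ∀ i, ∀ l ∈ P i, ¬ l ∣ n ω)) =
      S.filter (fun ω => ∀ l ∈ Pool.Agent.H410R2.ED.Pr κ J, ¬ l ∣ n ω) := by
    refine filter_congr fun ω _ => ?_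
    rw [← Pr_eq]
    exact all_bhU P (fun l => ¬ l ∣ n ω)
  rw [hSf] at hmain
  have hVeq : ∏ l ∈ Pool.Agent.H410R2.ED.Pr κ J, (1 - g l) = ∏ i, ∏ l ∈ P i, (1 - g l) := by
    rw [bh_pT_eq P hPG (fun l => 1 - g l), ← Pr_eq]
  rw [hVeq]
  set V : Fin J → ℝ := fun i => ∏ l ∈ P i, (1 - g l) with hVdef
  set Tr : Fin J → ℝ := fun i => bhA g (b i) (P i) with hTr
  set Er : Fin J → ℝ := fun i => bhE g (b i + 1) (P i) with hEr
  have hTrdef : ∀ i, ∑ U ∈ (P i).powerset.filter (fun U => U.card ≤ b i),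
      (-1) ^ U.card * ∏ l ∈ U, g l = Tr i := fun i => rfl
  have hErdef : ∀ i, ∑ U ∈ (P i).powersetCard (b i + 1), ∏ l ∈ U, g l = Er i := fun i => rfl
  simp only [hTrdef, hErdef] at hmain
  have hgk : ∀ i, ∀ l ∈ P i, g l ≤ 1 / 2 := by
    intro i l hl
    have h1 := (hg l (hPp i l hl)).2
    have h2 : 2 * (κ : ℝ) < l := by exact_mod_cast hPk i l hl
    have h3 : (0 : ℝ) < l := by linarith
    refine h1.trans ?_
    rw [div_le_iff₀ h3]
    linarith
  have hgb : ∀ i, ∀ l ∈ P i, 0 ≤ g l ∧ g l ≤ 1 := fun i l hl =>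
    ⟨(hg l (hPp i l hl)).1, by linarith [hgk i l hl]⟩
  have hbonf : ∀ i, V i ≤ Tr i ∧ Tr i ≤ V i + Er i := by
    intro i
    have h := bh_bonf g (P i) (hgb i) (b i)
    rw [(hb i).neg_one_pow, one_mul] at h
    constructor
    · have := h.1; simp only [hVdef, hTr]; linarith
    · have := h.2; simp only [hVdef, hTr, hEr]; linarith
  have hgsum : ∀ i, ∑ l ∈ P i, g l ≤ κ * L := by
    intro i
    calc ∑ l ∈ P i, g l ≤ ∑ l ∈ P i, (κ : ℝ) * (1 / (l : ℝ)) := by
          apply sum_le_sum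
          intro l hl
          have := (hg l (hPp i l hl)).2
          rw [mul_one_div]; exact this
      _ = κ * ∑ l ∈ P i, 1 / (l : ℝ) := by rw [mul_sum]
      _ ≤ κ * ∑ l ∈ Gj ((i : ℕ) + 1), 1 / (l : ℝ) := by
          apply mul_le_mul_of_nonneg_left _ hκ0.le
          apply sum_le_sum_of_subset_of_nonneg (hPG i)
          intro l _ _
          positivity
      _ ≤ κ * L := mul_le_mul_of_nonneg_left (hLs i) hκ0.le
  have hVv : ∀ i, v ≤ V i := by
    intro i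
    have h1 : Real.exp (-(2 * ∑ l ∈ P i, g l)) ≤ V i := by
      have h2 : -(2 * ∑ l ∈ P i, g l) = ∑ l ∈ P i, -(2 * g l) := by
        rw [mul_sum, ← sum_neg_distrib]
      rw [h2, Real.exp_sum]
      refine prod_le_prod (fun l _ => (Real.exp_pos _).le) fun l hl => ?_
      exact bh_inv_ge (hgb i l hl).1 (hgk i l hl)
    refine le_trans ?_ h1
    rw [hv]
    exact Real.exp_le_exp.2 (by linarith [hgsum i])
  have hEr0 : ∀ i, 0 ≤ Er i := fun i => bhE_nonneg _ _ _ fun l hl => (hgb i l hl).1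
  have hErle : ∀ i, Er i ≤ (κ * L) ^ (b i + 1) / (b i + 1).factorial := by
    intro i
    refine (bhE_le g (P i) (fun l hl => (hgb i l hl).1) (b i + 1)).trans ?_
    have h0 : 0 ≤ ∑ l ∈ P i, g l := sum_nonneg fun l hl => (hgb i l hl).1
    have h1 := hgsum i
    gcongr
  have hErv : ∀ i, Er i / v ≤ (1 / 2) ^ (b i + 1) := by
    intro i
    have h1 : Er i / v = Er i * Real.exp (2 * (κ * L)) := by
      rw [hv, Real.exp_neg, div_inv_eq_mul]
    rw [h1]
    refine le_trans (mul_le_mul_of_nonneg_right (hErle i) (Real.exp_pos _).le) ?_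
    apply tail_one (κ * L) (by positivity) (b i + 1) (by omega)
    have h2 : (b0 : ℝ) ≤ ((b i + 1 : ℕ) : ℝ) := by
      have : b0 ≤ b i + 1 := by simp only [hbdef]; omega
      exact_mod_cast this
    linarith
  have hErsum : ∑ i, Er i / v ≤ 1 / 2 :=
    le_trans (sum_le_sum fun i _ => hErv i) (tail_sum b0 J hb02)
  have hV0 : ∀ i, 0 < V i := fun i => lt_of_lt_of_le hv0 (hVv i)
  have hTr0 : ∀ i, 0 < Tr i := fun i => lt_of_lt_of_le (hV0 i) (hbonf i).1
  have herr0 := err_all κ J b0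
  have hz1 : (1 : ℝ) ≤ (2 : ℝ) ^ 2 ^ J := one_le_pow₀ (by norm_num)
  have hcκ : 4 * b0 + 13 ≤ (8 * (N + 1) + 13) * κ := by
    rw [hb0]; nlinarith
  have herr : ((J : ℝ) + 1) * ∏ i, ∑ U ∈ (P i).powerset.filter (fun U => U.card ≤ b i + 1),
      (κ : ℝ) ^ U.card ≤ ((2 : ℝ) ^ 2 ^ J) ^ ((8 * (N + 1) + 13) * κ) :=
    le_trans herr0 (pow_le_pow_right₀ hz1 hcκ)
  have herr' : ∏ i, ∑ U ∈ (P i).powerset.filter (fun U => U.card ≤ b i + 1), (κ : ℝ) ^ U.card ≤
      ((2 : ℝ) ^ 2 ^ J) ^ ((8 * (N + 1) + 13) * κ) := by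
    refine le_trans ?_ herr
    have h0 : 0 ≤ ∏ i, ∑ U ∈ (P i).powerset.filter (fun U => U.card ≤ b i + 1),
        (κ : ℝ) ^ U.card := prod_nonneg fun i _ => sum_nonneg fun U _ => by positivity
    have h1 : (1 : ℝ) ≤ (J : ℝ) + 1 := by
      have : (0 : ℝ) ≤ J := Nat.cast_nonneg J
      linarith
    exact le_mul_of_one_le_left h0 h1
  have hV00 : 0 ≤ ∏ i, V i := prod_nonneg fun i _ => (hV0 i).le
  constructor
  · refine le_trans ?_ hmain.2
    have hA : (J + 1) * E * ∏ i, ∑ U ∈ (P i).powerset.filter (fun U => U.card ≤ b i + 1),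
        (κ : ℝ) ^ U.card ≤ ((2 : ℝ) ^ 2 ^ J) ^ ((8 * (N + 1) + 13) * κ) * E := by
      calc (J + 1) * E * ∏ i, ∑ U ∈ (P i).powerset.filter (fun U => U.card ≤ b i + 1),
        (κ : ℝ) ^ U.card = (((J : ℝ) + 1) * ∏ i, ∑ U ∈ (P i).powerset.filter
          (fun U => U.card ≤ b i + 1), (κ : ℝ) ^ U.card) * E := by ring
        _ ≤ _ := mul_le_mul_of_nonneg_right herr hE
    have hB : (1 / 2) * ∏ i, V i ≤ (∏ i, Tr i) - ∑ k, Er k * ∏ i ∈ univ.erase k, Tr i := by
      have hTp : ∏ i, V i ≤ ∏ i, Tr i := prod_le_prod (fun i _ => (hV0 i).le)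
        fun i _ => (hbonf i).1
      have hk : ∀ k, Er k * ∏ i ∈ univ.erase k, Tr i ≤ Er k / v * ∏ i, Tr i := by
        intro k
        have h1 : ∏ i, Tr i = Tr k * ∏ i ∈ univ.erase k, Tr i :=
          (mul_prod_erase univ Tr (mem_univ k)).symm
        have h2 : 0 ≤ ∏ i ∈ univ.erase k, Tr i := prod_nonneg fun i _ => (hTr0 i).le
        rw [h1, div_mul_eq_mul_div, le_div_iff₀ hv0]
        have h3 : v ≤ Tr k := (hVv k).trans (hbonf k).1
        have h4 : Er k * (∏ i ∈ univ.erase k, Tr i) * v ≤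
            Er k * (∏ i ∈ univ.erase k, Tr i) * Tr k :=
          mul_le_mul_of_nonneg_left h3 (mul_nonneg (hEr0 k) h2)
        linarith
      have hsum : ∑ k, Er k * ∏ i ∈ univ.erase k, Tr i ≤ (1 / 2) * ∏ i, Tr i := by
        calc ∑ k, Er k * ∏ i ∈ univ.erase k, Tr i ≤ ∑ k, Er k / v * ∏ i, Tr i :=
              sum_le_sum fun k _ => hk k
          _ = (∑ k, Er k / v) * ∏ i, Tr i := by rw [← sum_mul]
          _ ≤ (1 / 2) * ∏ i, Tr i :=
              mul_le_mul_of_nonneg_right hErsum (prod_nonneg fun i _ => (hTr0 i).le)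
      linarith
    have hC : X / 2 * ∏ i, V i ≤
        X * ((∏ i, Tr i) - ∑ k, Er k * ∏ i ∈ univ.erase k, Tr i) := by
      have := mul_le_mul_of_nonneg_left hB hX
      calc X / 2 * ∏ i, V i = X * (1 / 2 * ∏ i, V i) := by ring
        _ ≤ _ := this
    linarith
  · refine hmain.1.trans ?_
    have hexp : Real.exp (1 / 2) ≤ 2 := by
      have h1 : Real.exp (1 / 2) ^ 2 = Real.exp 1 := by
        rw [← Real.exp_nat_mul]; norm_num
      have h2 : Real.exp 1 < 2.7182818286 := Real.exp_one_lt_d9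
      have h3 : 0 < Real.exp (1 / 2) := Real.exp_pos _
      nlinarith
    have hA : ∏ i, Tr i ≤ 2 * ∏ i, V i := by
      have h1 : ∏ i, Tr i ≤ ∏ i, V i * Real.exp (Er i / v) := by
        refine prod_le_prod (fun i _ => (hTr0 i).le) fun i _ => ?_
        refine (hbonf i).2.trans ?_
        have h2 := Real.add_one_le_exp (Er i / v)
        have h3 : V i * (Er i / v + 1) ≤ V i * Real.exp (Er i / v) :=
          mul_le_mul_of_nonneg_left h2 (hV0 i).le
        refine le_trans ?_ h3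
        have h4 : Er i ≤ V i * (Er i / v) := by
          rw [← mul_div_assoc, le_div_iff₀ hv0, mul_comm (V i)]
          exact mul_le_mul_of_nonneg_left (hVv i) (hEr0 i)
        linarith
      rw [prod_mul_distrib, ← Real.exp_sum] at h1
      have h6 : Real.exp (∑ i, Er i / v) ≤ Real.exp (1 / 2) := Real.exp_le_exp.2 hErsum
      calc ∏ i, Tr i ≤ (∏ i, V i) * Real.exp (∑ i, Er i / v) := h1
        _ ≤ (∏ i, V i) * 2 := mul_le_mul_of_nonneg_left (h6.trans hexp) hV00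
        _ = _ := by ring
    have hB : X * ∏ i, Tr i ≤ 2 * X * ∏ i, V i := by
      calc X * ∏ i, Tr i ≤ X * (2 * ∏ i, V i) := mul_le_mul_of_nonneg_left hA hX
        _ = _ := by ring
    have hC : E * ∏ i, ∑ U ∈ (P i).powerset.filter (fun U => U.card ≤ b i + 1), (κ : ℝ) ^ U.card ≤
        ((2 : ℝ) ^ 2 ^ J) ^ ((8 * (N + 1) + 13) * κ) * E := by
      rw [mul_comm]
      exact mul_le_mul_of_nonneg_right herr' hE
    linarith

end Pool.Agent.H483R2
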